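import Pool.Agent.MP_08b96b_lc.Final

set_option autoImplicit false

namespace Pool.Agent.Results.MP_08b96b_lc.PerfectHole

open Pool.Agent.MP_08b96b_lc Pool.Agent.Lib.helper60 Turing Computability

/-- A polynomial-time algorithm that decides, for a perfect graph and two distinct vertices,
whether they lie on a common hole exists if and only if P = NP. Moreover every language in NP
reduces in polynomial time to the instances with a bipartite graph. -/
theorem result :
    ((∃ d : PerfectInput → Bool,
        Nonempty (TM2ComputableInPolyTime (fun I : PerfectInput => I.1.encode) encodeBool d) ∧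
        ∀ I : PerfectInput, d I = true ↔ OnCommonHole I.1.G I.1.u I.1.v) ↔
      ∀ L : Set (List Bool), InP L ↔ InNP L) ∧
    ∀ L : Set (List Bool), InNP L → ∃ f : List Bool → PerfectInput,
      Nonempty (TM2ComputableInPolyTime (fun w : List Bool => w)
        (fun I : PerfectInput => I.1.encode) f) ∧
      ∀ w, (f w).1.G.Colorable 2 ∧ (w ∈ L ↔ OnCommonHole (f w).1.G (f w).1.u (f w).1.v) := by
  refine ⟨perfect_iff, ?_⟩
  intro L hL
  obtain ⟨f, ⟨hf⟩, hfL⟩ := np_hard hL
  refine ⟨fun w => ⟨(f w).1, isPerfect_of_colorable (f w).2.1, (f w).2.2⟩,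
    ⟨{ toTM2ComputableAux := hf.toTM2ComputableAux
       time := hf.time
       outputsFun := hf.outputsFun }⟩, ?_⟩
  intro w
  exact ⟨(f w).2.1, hfL w⟩

end Pool.Agent.Results.MP_08b96b_lc.PerfectHole
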